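import Pool.Agent.Run7.h179.EX.FinD

/-!
# Minimisers of the double lattice packing density with few densest packings are polytopes

Let `K` be a convex body in `ℝ³` and `x` an extreme point of `K`. For `r > 0` let `trunc K x r` be the
convex hull of the part of `K` at distance at least `r` from `x`. Suppose that no densest packing of
the form `{(K ∪ (v - K)) + u : u ∈ Λ}` has a member `K + u`, `u ≠ 0`, which contains `x` and whose contact
set `K ∩ (K + u)` is a point or a segment, nor the member `2 x - K`. Then for ALL sufficiently small `r`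
the convex body `trunc K x r ⊂ K` has a smaller density `δ_{L*}` than `K`. Therefore a convex body which
minimises `δ_{L*}`, globally or among its convex sub-bodies, and has only finitely many densest
packings of this form is a polytope; if it has countably many, it has countably many extreme points.

Proof. As for the lattice packings (`PolytopeOrManyLattices`); when `K` and a reflected member `g - K`
of a packing of `trunc K x r` overlap, the overlap is symmetric about `g / 2`, so that `g / 2` is at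
distance at most `r` from `x`, and in the limit `g = 2 x`.
-/

set_option autoImplicit false

namespace Pool.Agent.Results.MP_3d065d_co.PolytopeOrManyDouble

open Pool.Agent.H349R2.Tet (lat)
open Pool.Agent.TH219.DL (Body IsPack famLs den dLs mn)

/-- the convex hull of the part of `K` outside of the open ball (for the maximum norm) of radius `r`
with centre `x` -/
def trunc (K : Set (Fin 3 → ℝ)) (x : Fin 3 → ℝ) (r : ℝ) : Set (Fin 3 → ℝ) :=
  convexHull ℝ (K \ Metric.ball x r)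

/-- `b` is a basis of `ℝ³` and the sets `K + u`, `v - K + u`, `u` in the lattice generated by `b`, are a
packing with the density `δ_{L*}(K)` -/
def Densest (K : Set (Fin 3 → ℝ)) (v : Fin 3 → ℝ) (b : Fin 3 → (Fin 3 → ℝ)) : Prop :=
  LinearIndependent ℝ b ∧ IsPack K (famLs v b) ∧ den K (famLs v b) = dLs K

/-- some packing of this form of density `δ_{L*}(K)` has a member `K + u`, `u ≠ 0`, with `x ∈ K + u` and
such that `K ∩ (K + u)` is contained in a line, or it has the member `2 x - K` -/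
def EdgeTouched (K : Set (Fin 3 → ℝ)) (x : Fin 3 → ℝ) : Prop :=
  ∃ (v : Fin 3 → ℝ) (b : Fin 3 → (Fin 3 → ℝ)), Densest K v b ∧
    ((∃ u ∈ lat b, u ≠ 0 ∧ x ∈ (fun y => y + u) '' K ∧ Collinear ℝ (K ∩ (fun y => y + u) '' K)) ∨
      ∃ u ∈ lat b, v + u = (2 : ℝ) • x)

/-- the set of the densest packings of this form of `K` -/
def densestPackings (K : Set (Fin 3 → ℝ)) : Set (Set (Bool × (Fin 3 → ℝ))) :=
  {P | ∃ (v : Fin 3 → ℝ) (b : Fin 3 → (Fin 3 → ℝ)), Densest K v b ∧ P = famLs v b}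

theorem touched {K : Set (Fin 3 → ℝ)} (hK : Body K) {x : Fin 3 → ℝ} (hx : x ∈ K.extremePoints ℝ)
    (h : ∀ r₀ : ℝ, 0 < r₀ → ∃ r : ℝ, 0 < r ∧ r < r₀ ∧ dLs K ≤ dLs (trunc K x r)) : EdgeTouched K x := by
  obtain ⟨v, b, h1, h2, h4⟩ := Run7.h179.EX.limSD hK hx h
  have h3 := (Run7.h179.EX.p2_iff K v b).2 h1
  refine ⟨v, b, ⟨h3.1, h3.2, ?_⟩, ?_⟩
  · rw [Run7.h179.EX.den_eq2 hK h1]
    exact h2
  · rcases h4 with ⟨u, hu, hu0, hxu, h5⟩ | h5
    · exact Or.inl ⟨u, hu, hu0, ⟨x - u, hxu, sub_add_cancel x u⟩, Run7.h179.EX.coll_of hx.1 hxu h5⟩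
    · exact Or.inr h5

theorem ext_finD {K : Set (Fin 3 → ℝ)} (hK : Body K) (v : Fin 3 → ℝ) {b : Fin 3 → (Fin 3 → ℝ)}
    (hb : LinearIndependent ℝ b) :
    {x | x ∈ K.extremePoints ℝ ∧ ((∃ u ∈ lat b, u ≠ 0 ∧ x ∈ (fun y => y + u) '' K ∧
      Collinear ℝ (K ∩ (fun y => y + u) '' K)) ∨ ∃ u ∈ lat b, v + u = (2 : ℝ) • x)}.Finite := by
  have hdt := (Pool.Agent.H349R2.Tet.dt_ne_zero_iff b).2 hb
  obtain ⟨R, hR⟩ := hK.1.isBounded.subset_closedBall (0 : Fin 3 → ℝ)
  refine ((Run7.h179.EX.ext_fin hK hdt).union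
    ((Run7.h179.EX.lat_fin hdt (2 * R + ‖v‖)).image (fun u => (1 / 2 : ℝ) • (v + u)))).subset ?_
  rintro x ⟨hx, h | ⟨u, hu, hux⟩⟩
  · exact Or.inl ⟨hx, h⟩
  · refine Or.inr ⟨u, ⟨hu, ?_⟩, ?_⟩
    · have h1 := hR hx.1
      rw [Metric.mem_closedBall, dist_zero_right] at h1
      have h2 : u = (2 : ℝ) • x - v := by rw [← hux, add_sub_cancel_left]
      rw [h2]
      refine (norm_sub_le _ _).trans ?_
      rw [norm_smul, Real.norm_of_nonneg (by norm_num)]
      linarith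
    · show (1 / 2 : ℝ) • (v + u) = x
      rw [hux]
      module

/-- **Minimisers of the double lattice packing density.** -/
theorem result :
    (∀ K : Set (Fin 3 → ℝ), Body K → ∀ x ∈ K.extremePoints ℝ, ¬ EdgeTouched K x →
      ∃ r₀ : ℝ, 0 < r₀ ∧ ∀ r : ℝ, 0 < r → r < r₀ →
        Body (trunc K x r) ∧ trunc K x r ⊆ K ∧ x ∉ trunc K x r ∧ dLs (trunc K x r) < dLs K) ∧
    (∀ K : Set (Fin 3 → ℝ), Body K →
      (∀ K' : Set (Fin 3 → ℝ), Body K' → K' ⊆ K → dLs K ≤ dLs K') ∨ dLs K = mn dLs →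
      (∀ x ∈ K.extremePoints ℝ, EdgeTouched K x) ∧
      ((densestPackings K).Finite →
        (K.extremePoints ℝ).Finite ∧ K = convexHull ℝ (K.extremePoints ℝ)) ∧
      ((densestPackings K).Countable → (K.extremePoints ℝ).Countable)) := by
  have key : ∀ K : Set (Fin 3 → ℝ), Body K → ∀ x ∈ K.extremePoints ℝ, ¬ EdgeTouched K x →
      ∃ r₀ : ℝ, 0 < r₀ ∧ ∀ r : ℝ, 0 < r → r < r₀ →
        Body (trunc K x r) ∧ trunc K x r ⊆ K ∧ x ∉ trunc K x r ∧ dLs (trunc K x r) < dLs K := by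
    intro K hK x hx hnt
    obtain ⟨c, -, D, hD, hcut⟩ := Run7.h179.EX.cut hK hx
    have h1 : ∃ r₀ : ℝ, 0 < r₀ ∧ ∀ r : ℝ, 0 < r → r < r₀ → dLs (trunc K x r) < dLs K := by
      by_contra hcon
      push Not at hcon
      exact hnt (touched hK hx fun r₀ hr₀ => by
        obtain ⟨r, a1, a2, a3⟩ := hcon r₀ hr₀
        exact ⟨r, a1, a2, a3⟩)
    obtain ⟨r₀, hr₀, h2⟩ := h1
    refine ⟨min r₀ (D / 2), lt_min hr₀ (by positivity), fun r h3 h4 => ?_⟩
    have h5 : 2 * r < D := by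
      have := h4.trans_le (min_le_right _ _)
      linarith
    obtain ⟨a1, a2, a3, -, -, -⟩ := hcut r h3 h5
    exact ⟨a2, a1, a3, h2 r h3 (h4.trans_le (min_le_left _ _))⟩
  refine ⟨key, fun K hK hmin' => ?_⟩
  have hmin : ∀ K' : Set (Fin 3 → ℝ), Body K' → K' ⊆ K → dLs K ≤ dLs K' := by
    rcases hmin' with h | h
    · exact h
    · intro K' hK' _
      rw [h]
      exact iInf₂_le K' hK'
  have hall : ∀ x ∈ K.extremePoints ℝ, EdgeTouched K x := by
    intro x hx
    by_contra hnt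
    obtain ⟨r₀, hr₀, h⟩ := key K hK x hx hnt
    obtain ⟨h1, h2, -, h3⟩ := h (r₀ / 2) (by positivity) (by linarith)
    exact absurd h3 (not_lt.2 (hmin _ h1 h2))
  have hcov : K.extremePoints ℝ ⊆ ⋃ P ∈ densestPackings K, {x | x ∈ K.extremePoints ℝ ∧
      ((∃ u, (false, u) ∈ P ∧ u ≠ 0 ∧ x ∈ (fun y => y + u) '' K ∧
        Collinear ℝ (K ∩ (fun y => y + u) '' K)) ∨ (true, (2 : ℝ) • x) ∈ P)} := by
    intro x hx
    obtain ⟨v, b, hb, h⟩ := hall x hx
    refine Set.mem_biUnion (x := famLs v b) ⟨v, b, hb, rfl⟩ ⟨hx, ?_⟩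
    rcases h with ⟨u, hu, h⟩ | ⟨u, hu, h⟩
    · exact Or.inl ⟨u, Or.inl ⟨rfl, hu⟩, h⟩
    · exact Or.inr (Or.inr ⟨rfl, u, hu, h.symm⟩)
  have hfin : ∀ P ∈ densestPackings K, {x | x ∈ K.extremePoints ℝ ∧
      ((∃ u, (false, u) ∈ P ∧ u ≠ 0 ∧ x ∈ (fun y => y + u) '' K ∧
        Collinear ℝ (K ∩ (fun y => y + u) '' K)) ∨ (true, (2 : ℝ) • x) ∈ P)}.Finite := by
    rintro _ ⟨v, b, hb, rfl⟩
    refine (ext_finD hK v hb.1).subset ?_
    rintro x ⟨hx, ⟨u, hu, h⟩ | h⟩
    · refine ⟨hx, Or.inl ⟨u, ?_, h⟩⟩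
      rcases hu with ⟨-, h1⟩ | ⟨h1, -⟩
      · exact h1
      · exact absurd h1 (by simp)
    · refine ⟨hx, Or.inr ?_⟩
      rcases h with ⟨h1, -⟩ | ⟨-, u, hu, h1⟩
      · exact absurd h1 (by simp)
      · exact ⟨u, hu, h1.symm⟩
  refine ⟨hall, fun h => ?_, fun h => ?_⟩
  · have h1 : (K.extremePoints ℝ).Finite := (h.biUnion hfin).subset hcov
    refine ⟨h1, ?_⟩
    have h2 := closure_convexHull_extremePoints hK.1 hK.2.1
    have h3 : IsClosed (convexHull ℝ (K.extremePoints ℝ)) := h1.isClosed_convexHull ℝ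
    rw [h3.closure_eq] at h2
    exact h2.symm
  · exact (h.biUnion fun P hP => (hfin P hP).countable).mono hcov

end Pool.Agent.Results.MP_3d065d_co.PolytopeOrManyDouble
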