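import Pool.Agent.Run7.h179.EX.Fce

/-!
# Minimisers of the lattice packing density with few densest packings are polytopes

Let `K` be a convex body in `ℝ³` and `x` an extreme point of `K`. For `r > 0` let `trunc K x r` be the
convex hull of the part of `K` at distance at least `r` from `x`. If no densest lattice packing of `K`
has a member `K + u`, `u ≠ 0`, which contains `x` and whose contact set `K ∩ (K + u)` is a point or a
segment, then for ALL sufficiently small `r` the convex body `trunc K x r ⊂ K` has a smaller lattice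
packing density than `K`. So in a convex body which minimises `δ_L`, globally or among its convex
sub-bodies, every extreme point lies on a contact set of dimension at most one of some densest lattice
packing. As such a set contains at most two extreme points, and as a lattice has only finitely many
vectors `u` for which `K + u` meets `K`, a minimiser with only finitely many densest packing lattices
is a polytope, and a minimiser with countably many has countably many extreme points.

Proof. Let `δ_L(K_r) ≥ δ_L(K)` for `K_r = trunc K x r`, `r` small. There is a packing lattice `Λ_r` of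
`K_r` of determinant less than `vol(K)/δ_L(K)`, so `Λ_r` is not a packing lattice of `K`, and the
interiors of `K` and `K + u_r` meet for some `u_r ∈ Λ_r`; they meet only at distance at most `r` from
`x` (after a change of the sign of `u_r`). The lattices `Λ_r` have a subsequence with a limit `Λ`
(reduced bases), which is a packing lattice of `K` with density `δ_L(K)`, and `u_r` tends to `u ∈ Λ`
with `x ∈ K + u`. Suppose that `K ∩ (K + u)` contains a triangle with a vertex at `x`, and let `y` be its
centre. The plane `H` of the triangle separates `K` and `K + u`, and `K` and `K + u` contain half balls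
with centre `y` on the two sides of `H`. As the interiors of `K` and `K + u_r` meet, `u_r` is
displaced from `u` into the side of `K`, and therefore these interiors also meet near `y`, a
contradiction.
-/

set_option autoImplicit false

namespace Pool.Agent.Results.MP_3d065d_co.PolytopeOrManyLattices

open Pool.Agent.H349R2.Tet (lat)
open Pool.Agent.TH219.DL (Body IsPack famL den dL mn)

/-- the convex hull of the part of `K` outside of the open ball (for the maximum norm) of radius `r`
with centre `x` -/
def trunc (K : Set (Fin 3 → ℝ)) (x : Fin 3 → ℝ) (r : ℝ) : Set (Fin 3 → ℝ) :=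
  convexHull ℝ (K \ Metric.ball x r)

/-- `b` is a basis of `ℝ³` and the translates of `K` by the points of the lattice generated by `b` are
a packing with the density `δ_L(K)` -/
def Densest (K : Set (Fin 3 → ℝ)) (b : Fin 3 → (Fin 3 → ℝ)) : Prop :=
  LinearIndependent ℝ b ∧ IsPack K (famL b) ∧ den K (famL b) = dL K

/-- some lattice packing of `K` of density `δ_L(K)` has a member `K + u`, `u ≠ 0`, with `x ∈ K + u` and
such that `K ∩ (K + u)` is contained in a line -/
def EdgeTouched (K : Set (Fin 3 → ℝ)) (x : Fin 3 → ℝ) : Prop :=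
  ∃ b : Fin 3 → (Fin 3 → ℝ), Densest K b ∧
    ∃ u ∈ lat b, u ≠ 0 ∧ x ∈ (fun y => y + u) '' K ∧ Collinear ℝ (K ∩ (fun y => y + u) '' K)

/-- the set of the lattices of the densest lattice packings of `K` -/
def densestLattices (K : Set (Fin 3 → ℝ)) : Set (Set (Fin 3 → ℝ)) :=
  {Λ | ∃ b : Fin 3 → (Fin 3 → ℝ), Densest K b ∧ Λ = lat b}

theorem touched {K : Set (Fin 3 → ℝ)} (hK : Body K) {x : Fin 3 → ℝ} (hx : x ∈ K.extremePoints ℝ)
    (h : ∀ r₀ : ℝ, 0 < r₀ → ∃ r : ℝ, 0 < r ∧ r < r₀ ∧ dL K ≤ dL (trunc K x r)) : EdgeTouched K x := by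
  obtain ⟨b, h1, h2, u, hu, hu0, hxu, h4⟩ := Run7.h179.EX.limS hK hx h
  have h3 := (Run7.h179.EX.packs_famL K b).2 h1
  refine ⟨b, ⟨h3.1, h3.2, ?_⟩, u, hu, hu0, ⟨x - u, hxu, sub_add_cancel x u⟩,
    Run7.h179.EX.coll_of hx.1 hxu h4⟩
  rw [Run7.h179.EX.den_famL]
  exact h2

/-- **Minimisers of the lattice packing density.**
(1) Let `x` be an extreme point of the convex body `K` of `ℝ³` such that no densest lattice packing of
`K` has a member `K + u`, `u ≠ 0`, containing `x` with `K ∩ (K + u)` contained in a line. Then for all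
sufficiently small `r > 0` the set `trunc K x r` is a convex body contained in `K` and not containing
`x`, and its lattice packing density is less than that of `K`.
(2) Let `K` be a convex body with `δ_L(K) ≤ δ_L(K')` for all convex bodies `K'` contained in `K`. Then
every extreme point of `K` lies on such a member of a densest lattice packing of `K`. If `K` has only
finitely many densest packing lattices, then `K` is the convex hull of its finitely many extreme
points; if it has at most countably many, it has at most countably many extreme points.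
(3) In particular (2) holds for all convex bodies `K` with `δ_L(K) = m_L`. -/
theorem result :
    (∀ K : Set (Fin 3 → ℝ), Body K → ∀ x ∈ K.extremePoints ℝ, ¬ EdgeTouched K x →
      ∃ r₀ : ℝ, 0 < r₀ ∧ ∀ r : ℝ, 0 < r → r < r₀ →
        Body (trunc K x r) ∧ trunc K x r ⊆ K ∧ x ∉ trunc K x r ∧ dL (trunc K x r) < dL K) ∧
    (∀ K : Set (Fin 3 → ℝ), Body K →
      (∀ K' : Set (Fin 3 → ℝ), Body K' → K' ⊆ K → dL K ≤ dL K') ∨ dL K = mn dL →
      (∀ x ∈ K.extremePoints ℝ, EdgeTouched K x) ∧
      ((densestLattices K).Finite →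
        (K.extremePoints ℝ).Finite ∧ K = convexHull ℝ (K.extremePoints ℝ)) ∧
      ((densestLattices K).Countable → (K.extremePoints ℝ).Countable)) := by
  have key : ∀ K : Set (Fin 3 → ℝ), Body K → ∀ x ∈ K.extremePoints ℝ, ¬ EdgeTouched K x →
      ∃ r₀ : ℝ, 0 < r₀ ∧ ∀ r : ℝ, 0 < r → r < r₀ →
        Body (trunc K x r) ∧ trunc K x r ⊆ K ∧ x ∉ trunc K x r ∧ dL (trunc K x r) < dL K := by
    intro K hK x hx hnt
    obtain ⟨c, -, D, hD, hcut⟩ := Run7.h179.EX.cut hK hx
    have h1 : ∃ r₀ : ℝ, 0 < r₀ ∧ ∀ r : ℝ, 0 < r → r < r₀ → dL (trunc K x r) < dL K := by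
      by_contra hcon
      push Not at hcon
      exact hnt (touched hK hx fun r₀ hr₀ => by
        obtain ⟨r, a1, a2, a3⟩ := hcon r₀ hr₀
        exact ⟨r, a1, a2, a3⟩)
    obtain ⟨r₀, hr₀, h2⟩ := h1
    refine ⟨min r₀ (D / 2), lt_min hr₀ (by positivity), fun r h3 h4 => ?_⟩
    have h5 : 2 * r < D := by
      have := h4.trans_le (min_le_right _ _)
      linarith
    obtain ⟨a1, a2, a3, -, -, -⟩ := hcut r h3 h5
    exact ⟨a2, a1, a3, h2 r h3 (h4.trans_le (min_le_left _ _))⟩
  refine ⟨key, fun K hK hmin' => ?_⟩
  have hmin : ∀ K' : Set (Fin 3 → ℝ), Body K' → K' ⊆ K → dL K ≤ dL K' := by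
    rcases hmin' with h | h
    · exact h
    · intro K' hK' _
      rw [h]
      exact iInf₂_le K' hK'
  have hall : ∀ x ∈ K.extremePoints ℝ, EdgeTouched K x := by
    intro x hx
    by_contra hnt
    obtain ⟨r₀, hr₀, h⟩ := key K hK x hx hnt
    obtain ⟨h1, h2, -, h3⟩ := h (r₀ / 2) (by positivity) (by linarith)
    exact absurd h3 (not_lt.2 (hmin _ h1 h2))
  have hcov : K.extremePoints ℝ ⊆ ⋃ Λ ∈ densestLattices K, {x | x ∈ K.extremePoints ℝ ∧ ∃ u ∈ Λ, u ≠ 0 ∧
      x ∈ (fun y => y + u) '' K ∧ Collinear ℝ (K ∩ (fun y => y + u) '' K)} := by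
    intro x hx
    obtain ⟨b, hb, u, hu, h⟩ := hall x hx
    exact Set.mem_biUnion (x := lat b) ⟨b, hb, rfl⟩ ⟨hx, u, hu, h⟩
  have hfin : ∀ Λ ∈ densestLattices K, {x | x ∈ K.extremePoints ℝ ∧ ∃ u ∈ Λ, u ≠ 0 ∧
      x ∈ (fun y => y + u) '' K ∧ Collinear ℝ (K ∩ (fun y => y + u) '' K)}.Finite := by
    rintro _ ⟨b, hb, rfl⟩
    exact Run7.h179.EX.ext_fin hK ((Pool.Agent.H349R2.Tet.dt_ne_zero_iff b).2 hb.1)
  refine ⟨hall, fun h => ?_, fun h => ?_⟩
  · have h1 : (K.extremePoints ℝ).Finite := (h.biUnion hfin).subset hcov
    refine ⟨h1, ?_⟩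
    have h2 := closure_convexHull_extremePoints hK.1 hK.2.1
    have h3 : IsClosed (convexHull ℝ (K.extremePoints ℝ)) := h1.isClosed_convexHull ℝ
    rw [h3.closure_eq] at h2
    exact h2.symm
  · exact (h.biUnion fun Λ hΛ => (hfin Λ hΛ).countable).mono hcov

end Pool.Agent.Results.MP_3d065d_co.PolytopeOrManyLattices
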